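import Mathlib
import Pool.Agent.Helper98K9.Bike.Main

/-!
# Hyperbolic-to-elliptic transition of the bicycle monodromy for convex front tracks

For every simple strictly convex closed front track there is a length `ℓ₀ > 0` such that the
bicycle monodromy is hyperbolic for all lengths below `ℓ₀` and elliptic for all lengths above it.
-/

namespace Pool.Agent.Results.MP_08099c_gt.ConvexTransition

/-- `Γ : ℝ → ℂ` is a simple strictly convex closed front track of period `T`: it is `C²`, regular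
and periodic of period `T > 0`, it is injective on `[0, T)`, and its image is the boundary of a
compact strictly convex set with nonempty interior. -/
structure IsConvexTrack (Γ : ℝ → ℂ) (T : ℝ) : Prop where
  period_pos : 0 < T
  smooth : ContDiff ℝ 2 Γ
  regular : ∀ t, deriv Γ t ≠ 0
  periodic : ∀ t, Γ (t + T) = Γ t
  simple : Set.InjOn Γ (Set.Ico 0 T)
  bounds : ∃ K : Set ℂ, IsCompact K ∧ StrictConvex ℝ K ∧ (interior K).Nonempty ∧
    frontier K = Set.range Γ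

/-- `θ` is the direction angle of a bicycle of length `ℓ` with front track `Γ`:
`ℓ θ' = Γ' · (- sin θ, cos θ)`. -/
def IsRide (Γ : ℝ → ℂ) (ℓ : ℝ) (θ : ℝ → ℝ) : Prop :=
  Differentiable ℝ θ ∧ ∀ t, ℓ * deriv θ t =
    (deriv Γ t).re * (-Real.sin (θ t)) + (deriv Γ t).im * Real.cos (θ t)

/-- the homogeneous coordinates `(cos (x / 2), sin (x / 2))` of the point of the projective line
that corresponds to the point `x` of the circle `ℝ / 2 π ℤ` -/
noncomputable def homCoord (x : ℝ) : Fin 2 → ℝ := ![Real.cos (x / 2), Real.sin (x / 2)]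

/-- `M ∈ SL(2, ℝ)` is a lift of the monodromy `θ 0 ↦ θ T`: as a projective transformation it
carries the initial direction of each ride to the final direction. -/
def IsMonodromy (Γ : ℝ → ℂ) (T ℓ : ℝ) (M : Matrix.SpecialLinearGroup (Fin 2) ℝ) : Prop :=
  ∀ θ, IsRide Γ ℓ θ → ∃ c : ℝ, c ≠ 0 ∧
    (M : Matrix (Fin 2) (Fin 2) ℝ).mulVec (homCoord (θ 0)) = c • homCoord (θ T)

/-- the monodromy of `Γ` for the length `ℓ` is hyperbolic -/
def IsHyperbolic (Γ : ℝ → ℂ) (T ℓ : ℝ) : Prop :=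
  (∃ M, IsMonodromy Γ T ℓ M) ∧
    ∀ M, IsMonodromy Γ T ℓ M → 2 < |(M : Matrix (Fin 2) (Fin 2) ℝ).trace|

/-- the monodromy of `Γ` for the length `ℓ` is elliptic -/
def IsElliptic (Γ : ℝ → ℂ) (T ℓ : ℝ) : Prop :=
  (∃ M, IsMonodromy Γ T ℓ M) ∧
    ∀ M, IsMonodromy Γ T ℓ M → |(M : Matrix (Fin 2) (Fin 2) ℝ).trace| < 2

open Pool.Agent.Helper98K9.Bike in
theorem isRide_iff {Γ : ℝ → ℂ} {ℓ : ℝ} (hℓ : 0 < ℓ) (θ : ℝ → ℝ) : IsRide Γ ℓ θ ↔ BRide Γ ℓ θ := by
  constructor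
  · rintro ⟨h1, h2⟩ t
    refine (h1 t).hasDerivAt.congr_deriv ?_
    rw [eq_div_iff hℓ.ne', mul_comm, h2]
    ring
  · intro h
    refine ⟨fun t => (h t).differentiableAt, fun t => ?_⟩
    rw [(h t).deriv]
    field_simp
    ring

open Pool.Agent.Helper98K9.Bike in
/-- a lift of the monodromy exists and is unique up to sign -/
theorem exists_unique_up_to_sign {Γ : ℝ → ℂ} {T : ℝ} (h : IsConvexTrack Γ T) {ℓ : ℝ} (hℓ : 0 < ℓ) :
    ∃ M : Matrix.SpecialLinearGroup (Fin 2) ℝ, IsMonodromy Γ T ℓ M ∧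
      Repr Γ T ℓ (M : Matrix (Fin 2) (Fin 2) ℝ) ∧
      ∀ M', IsMonodromy Γ T ℓ M' → (M' : Matrix (Fin 2) (Fin 2) ℝ) = M ∨
        (M' : Matrix (Fin 2) (Fin 2) ℝ) = -(M : Matrix (Fin 2) (Fin 2) ℝ) := by
  obtain ⟨K, hK, hc, hi, hf⟩ := h.bounds
  obtain ⟨k1, -⟩ := transition h.period_pos h.smooth h.regular h.periodic h.simple hK.isClosed
    hc hi hf
  obtain ⟨a1, M, a2, a3⟩ := k1 ℓ hℓ
  refine ⟨⟨M, a2⟩, ?_, a3, ?_⟩
  · intro θ hθ
    obtain ⟨r, hr, e⟩ := a3 θ ((isRide_iff hℓ θ).1 hθ)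
    exact ⟨r, hr.ne', e⟩
  · intro M' hM'
    exact repr_unique a1 a2 M'.2 a3 fun θ hθ => hM' θ ((isRide_iff hℓ θ).2 hθ)

open Pool.Agent.Helper98K9.Bike in
/-- **Hyperbolic-to-elliptic transition.** For every simple strictly convex closed front track
there is `ℓ₀ > 0` such that the monodromy is hyperbolic for every `ℓ < ℓ₀` and elliptic for every
`ℓ > ℓ₀`. -/
theorem result (Γ : ℝ → ℂ) (T : ℝ) (h : IsConvexTrack Γ T) :
    ∃ ℓ₀ : ℝ, 0 < ℓ₀ ∧ (∀ ℓ, 0 < ℓ → ℓ < ℓ₀ → IsHyperbolic Γ T ℓ) ∧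
      (∀ ℓ, ℓ₀ < ℓ → IsElliptic Γ T ℓ) := by
  obtain ⟨K, hK, hc, hi, hf⟩ := h.bounds
  obtain ⟨-, l₀, hl₀, k2, k3⟩ := transition h.period_pos h.smooth h.regular h.periodic h.simple
    hK.isClosed hc hi hf
  refine ⟨l₀, hl₀, fun ℓ hℓ hlt => ?_, fun ℓ hlt => ?_⟩
  · obtain ⟨M, h1, h2, h3⟩ := exists_unique_up_to_sign h hℓ
    have key := k2 ℓ hℓ hlt (M : Matrix (Fin 2) (Fin 2) ℝ) M.2 h2
    refine ⟨⟨M, h1⟩, fun M' hM' => ?_⟩
    rcases h3 M' hM' with h4 | h4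
    · rw [h4]; exact key
    · rw [h4, Matrix.trace_neg, abs_neg]; exact key
  · obtain ⟨M, h1, h2, h3⟩ := exists_unique_up_to_sign h (hl₀.trans hlt)
    have key := k3 ℓ hlt (M : Matrix (Fin 2) (Fin 2) ℝ) M.2 h2
    refine ⟨⟨M, h1⟩, fun M' hM' => ?_⟩
    rcases h3 M' hM' with h4 | h4
    · rw [h4]; exact key
    · rw [h4, Matrix.trace_neg, abs_neg]; exact key

end Pool.Agent.Results.MP_08099c_gt.ConvexTransition
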